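import Pool.Agent.Helper65.Rogers.Defs
import Pool.Agent.Helper65.RogersN.Main

set_option autoImplicit false

open Pool.Agent.Helper65.Rogers

namespace Pool.Agent.Results.MP_4b6b3a_lc.NoMinimalCover

/-- For every `n ≥ 2` there is a `Σ_n^{-1}`-computable family `𝒜` whose Rogers semilattice has an
element `a` which is not the greatest element and has no minimal cover (`a ⋖ b` means that `b` is
a minimal cover of `a`: `a < b` and there is no `c` with `a < c < b`). -/
theorem result (n : ℕ) (hn : 2 ≤ n) :
    ∃ (𝒜 : Set (Set ℕ)) (a : RogersSemilattice n 𝒜), (¬ ∀ b, b ≤ a) ∧ ∀ b, ¬ a ⋖ b :=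
  Pool.Agent.Helper65.RogersN.main n hn

end Pool.Agent.Results.MP_4b6b3a_lc.NoMinimalCover
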